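import Pool.Agent.LefProd.Final2

/-!
Q1 for four, five and six variables: the weak Lefschetz property for artinian complete
intersections of products of linear forms, when at most two or three of the degrees exceed `2`.
-/

set_option autoImplicit false

universe u

namespace Pool.Agent.Results.MP_53b7aa_ag.FewHighWLP

open MvPolynomial

variable {K : Type u} [Field K] {n : ℕ}

/-- `f` is a product of `a` linear forms. -/
def IsProd (f : MvPolynomial (Fin n) K) (a : ℕ) : Prop :=
  ∃ ℓ : Fin a → MvPolynomial (Fin n) K, (∀ j, (ℓ j).IsHomogeneous 1) ∧ f = ∏ j, ℓ j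

/-- With `A = R / I`, multiplication by `ℓ ^ k` from `A_j` to `A_{j+k}` is injective or
surjective. -/
def MaxRank (I : Ideal (MvPolynomial (Fin n) K)) (ℓ : MvPolynomial (Fin n) K) (k j : ℕ) : Prop :=
  (∀ p : MvPolynomial (Fin n) K, p.IsHomogeneous j → ℓ ^ k * p ∈ I → p ∈ I) ∨
  (∀ q : MvPolynomial (Fin n) K, q.IsHomogeneous (j + k) →
    ∃ p : MvPolynomial (Fin n) K, p.IsHomogeneous j ∧ q - ℓ ^ k * p ∈ I)

/-- The weak Lefschetz property of `R / I`. -/
def WLP (I : Ideal (MvPolynomial (Fin n) K)) : Prop :=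
  ∃ ℓ : MvPolynomial (Fin n) K, ℓ.IsHomogeneous 1 ∧ ∀ j, MaxRank I ℓ 1 j

theorem result (K : Type u) [Field K] [CharZero K] (n : ℕ) (hn : 4 ≤ n)
    (f : Fin n → MvPolynomial (Fin n) K)
    (a : Fin n → ℕ) (ha : ∀ i, 1 ≤ a i) (hf : ∀ i, IsProd (f i) (a i))
    (hfin : Module.Finite K (MvPolynomial (Fin n) K ⧸ Ideal.span (Set.range f)))
    (r : ℕ) (hr : r = 2 ∨ r = 3) (hcard : (Finset.univ.filter fun i => 2 < a i).card ≤ r)
    (hnr : n + r ≤ 7 ∨ (n + r ≤ 8 ∧ Even (∑ i, (a i - 1)))) :
    WLP (Ideal.span (Set.range f)) := by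
  have hc : (Finset.univ.filter fun i => a i ≤ 2).card +
      (Finset.univ.filter fun i => 2 < a i).card = n := by
    have h := Finset.card_filter_add_card_filter_not (s := (Finset.univ : Finset (Fin n)))
      (fun i => a i ≤ 2)
    simpa only [not_le, Finset.card_univ, Fintype.card_fin] using h
  have three : (n = 4 ∨ (n = 5 ∧ Even (∑ i, (a i - 1)))) →
      n ≤ (Finset.univ.filter fun i => a i ≤ 2).card + 3 → WLP (Ideal.span (Set.range f)) := by
    intro hn h
    obtain ⟨𝓠, 𝓡, h1, h2, h3, h4, h5⟩ := LefProd.reduce_q f a ha hf hfin (n - 3) (by omega)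
    rw [← h5] at hn
    obtain ⟨μ, hμ⟩ := LefProd.wlp_of h3
      fun j hj => LefProd.wlp_three hn (by omega) h2 h3 hj
    refine ⟨LefProd.lin μ, LefProd.lin_isHomogeneous μ, ?_⟩
    rw [h4]
    exact hμ
  have two : (n = 5 ∨ (n = 6 ∧ Even (∑ i, (a i - 1)))) →
      n ≤ (Finset.univ.filter fun i => a i ≤ 2).card + 2 → WLP (Ideal.span (Set.range f)) := by
    intro hn h
    obtain ⟨𝓠, 𝓡, h1, h2, h3, h4, h5⟩ := LefProd.reduce_q f a ha hf hfin (n - 2) (by omega)
    rw [← h5] at hn
    obtain ⟨μ, hμ⟩ := LefProd.wlp_of h3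
      fun j hj => LefProd.wlp_two hn (by omega) h2 h3 hj
    refine ⟨LefProd.lin μ, LefProd.lin_isHomogeneous μ, ?_⟩
    rw [h4]
    exact hμ
  rcases Nat.lt_or_ge 4 n with h5 | h4
  · rcases hr with rfl | rfl
    · rcases Nat.lt_or_ge 5 n with h6 | h6
      · exact two (Or.inr ⟨by omega, by rcases hnr with h | h; · omega
                                        · exact h.2⟩) (by omega)
      · exact two (Or.inl (by omega)) (by omega)
    · exact three (Or.inr ⟨by omega, by rcases hnr with h | h; · omega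
                                        · exact h.2⟩) (by omega)
  · exact three (Or.inl (by omega)) (by omega)

end Pool.Agent.Results.MP_53b7aa_ag.FewHighWLP
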