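import Pool.Agent.LefRed.Trans2
import Pool.Agent.LefRed.Large8

/-!
Q2 for every number of variables: the strong Lefschetz property for artinian complete
intersections of products of linear forms, when all generators except one meet in different
points and the degree of the exceptional one is large compared with the other degrees.
-/

set_option autoImplicit false

universe u

namespace Pool.Agent.Results.MP_53b7aa_ag.LargeSLP

open MvPolynomial

variable {K : Type u} [Field K] {n : ℕ}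

/-- With `A = R / I`, multiplication by `ℓ ^ m` from `A_j` to `A_{j+m}` is injective or
surjective. -/
def MaxRank (I : Ideal (MvPolynomial (Fin n) K)) (ℓ : MvPolynomial (Fin n) K) (m j : ℕ) : Prop :=
  (∀ p : MvPolynomial (Fin n) K, p.IsHomogeneous j → ℓ ^ m * p ∈ I → p ∈ I) ∨
  (∀ q : MvPolynomial (Fin n) K, q.IsHomogeneous (j + m) →
    ∃ p : MvPolynomial (Fin n) K, p.IsHomogeneous j ∧ q - ℓ ^ m * p ∈ I)

/-- The strong Lefschetz property of `R / I`. -/
def SLP (I : Ideal (MvPolynomial (Fin n) K)) : Prop :=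
  ∃ ℓ : MvPolynomial (Fin n) K, ℓ.IsHomogeneous 1 ∧ ∀ m j, MaxRank I ℓ m j

theorem result (K : Type u) [Field K] [CharZero K] (n : ℕ) (a : Fin n → ℕ) (ha : ∀ i, 1 ≤ a i)
    (ℓ : (i : Fin n) → Fin (a i) → MvPolynomial (Fin n) K)
    (hℓ : ∀ i j, (ℓ i j).IsHomogeneous 1)
    (hfin : Module.Finite K
      (MvPolynomial (Fin n) K ⧸ Ideal.span (Set.range fun i => ∏ j, ℓ i j)))
    (k : Fin n)
    (hred : ∀ P : Fin n → K, P ≠ 0 → (∀ i, i ≠ k → eval P (∏ j, ℓ i j) = 0) →
      ∀ i, i ≠ k → ∀ j j', eval P (ℓ i j) = 0 → eval P (ℓ i j') = 0 → j = j')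
    (γ : ℕ) (hγ : γ = ∏ i ∈ Finset.univ.erase k, a i)
    (hlarge : ∑ i ∈ Finset.univ.erase k, (a i - 1) + γ * 4 ^ γ ≤ a k) :
    SLP (Ideal.span (Set.range fun i => ∏ j, ℓ i j)) := by
  obtain ⟨l, 𝓛, hl, _, hci, hI, hsg, hpd, hR⟩ := LefRed.reduce_red_prod a ha ℓ hℓ hfin k hred
  obtain ⟨v, hv⟩ := List.exists_mem_of_ne_nil l (hci.1 l List.mem_cons_self)
  obtain ⟨μ, hμ⟩ := LefProd.slp_of hci fun m j hmj =>
    LefRed.SLP_explicit2 hci hv (hR v) (by rw [hsg, hpd, hl, ← hγ]; exact hlarge) hmj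
  refine ⟨LefProd.lin μ, LefProd.lin_isHomogeneous μ, ?_⟩
  rw [hI]
  exact hμ

end Pool.Agent.Results.MP_53b7aa_ag.LargeSLP
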