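import Pool.Agent.LefRed.Trans
import Pool.Agent.LefRed.Pow2

/-!
Q1 and Q2 for every number of variables: artinian complete intersections of products of linear
forms such that all generators except one, of degree `a k`, meet in different points. All powers
of a general linear form have maximal rank up to the degree `a k + 1`, and dually; the weak
Lefschetz property holds if `a k` is at least the sum of the other `a i - 1` minus three.
-/

set_option autoImplicit false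

universe u

namespace Pool.Agent.Results.MP_53b7aa_ag.ReducedWLP

open MvPolynomial

variable {K : Type u} [Field K] {n : ℕ}

/-- With `A = R / I`, multiplication by `ℓ ^ m` from `A_j` to `A_{j+m}` is injective or
surjective. -/
def MaxRank (I : Ideal (MvPolynomial (Fin n) K)) (ℓ : MvPolynomial (Fin n) K) (m j : ℕ) : Prop :=
  (∀ p : MvPolynomial (Fin n) K, p.IsHomogeneous j → ℓ ^ m * p ∈ I → p ∈ I) ∨
  (∀ q : MvPolynomial (Fin n) K, q.IsHomogeneous (j + m) →
    ∃ p : MvPolynomial (Fin n) K, p.IsHomogeneous j ∧ q - ℓ ^ m * p ∈ I)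

/-- The weak Lefschetz property of `R / I`. -/
def WLP (I : Ideal (MvPolynomial (Fin n) K)) : Prop :=
  ∃ ℓ : MvPolynomial (Fin n) K, ℓ.IsHomogeneous 1 ∧ ∀ j, MaxRank I ℓ 1 j

theorem result (K : Type u) [Field K] [CharZero K] (n : ℕ) (a : Fin n → ℕ)
    (ℓ : (i : Fin n) → Fin (a i) → MvPolynomial (Fin n) K)
    (hℓ : ∀ i j, (ℓ i j).IsHomogeneous 1)
    (hfin : Module.Finite K
      (MvPolynomial (Fin n) K ⧸ Ideal.span (Set.range fun i => ∏ j, ℓ i j)))
    (k : Fin n) (hk : 1 ≤ a k) (h2 : ∀ i, i ≠ k → 2 ≤ a i)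
    (hred : ∀ P : Fin n → K, P ≠ 0 → (∀ i, i ≠ k → eval P (∏ j, ℓ i j) = 0) →
      ∀ i, i ≠ k → ∀ j j', eval P (ℓ i j) = 0 → eval P (ℓ i j') = 0 → j = j') :
    (∃ L : MvPolynomial (Fin n) K, L.IsHomogeneous 1 ∧
      ∀ m j, (j + m ≤ a k + 1 ∨ ∑ i, (a i - 1) ≤ j + a k + 1) →
        MaxRank (Ideal.span (Set.range fun i => ∏ j, ℓ i j)) L m j) ∧
    (∑ i ∈ Finset.univ.erase k, (a i - 1) ≤ a k + 3 →
      WLP (Ideal.span (Set.range fun i => ∏ j, ℓ i j))) := by
  have h1 : ∀ i, 1 ≤ a i := by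
    intro i
    by_cases hi : i = k
    · subst hi; exact hk
    · exact (h2 i hi).trans' (by norm_num)
  obtain ⟨l, 𝓛, hl, hlen, hci, hI, hsg, hR⟩ := LefRed.reduce_red a h1 ℓ hℓ hfin k hred
  obtain ⟨v, hv⟩ := List.exists_mem_of_ne_nil l (hci.1 l List.mem_cons_self)
  have hlen2 : ∀ l' ∈ 𝓛, 2 ≤ l'.length := by
    intro l' hl'
    obtain ⟨i, hi, hi'⟩ := hlen l' hl'
    rw [hi']
    exact h2 i hi
  obtain ⟨μ, hμ⟩ := LefRed.mr_pow hci hv (hR v) hlen2
  have hadd := Finset.add_sum_erase Finset.univ (fun i => a i - 1) (Finset.mem_univ k)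
  have hsum : LefProd.sg (l :: 𝓛) = ∑ i, (a i - 1) := by
    rw [LefProd.sg_cons, hsg, hl, hadd]
  rw [hsum, hl, ← hI] at hμ
  refine ⟨⟨LefProd.lin μ, LefProd.lin_isHomogeneous μ, hμ⟩, fun hdeg => ?_⟩
  refine ⟨LefProd.lin μ, LefProd.lin_isHomogeneous μ, fun j => hμ 1 j ?_⟩
  omega

end Pool.Agent.Results.MP_53b7aa_ag.ReducedWLP
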